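import Pool.Agent.Q224.DelSunDefs
import Pool.Agent.Q224.DelSunF

/-!
# MP_2a941c_nt, Q1

For all positive integers `m, n` both
`A_{m,n}(x) = (1/n) ∑_{k<n} (2k+1) d_k(x)^m s_k(x)^m` and
`B_{m,n}(x) = (1/n) ∑_{k<n} (-1)^k (2k+1) d_k(x)^m s_k(x)^m` are integer-valued.
-/

namespace Pool.Agent.Results.MP_2a941c_nt.IntegerValuedDS

open Pool.Agent.Q224.DelSunDefs

theorem result (m n : ℕ) (_hm : 0 < m) (hn : 0 < n) :
    IntegerValued (A m n) ∧ IntegerValued (B m n) :=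
  ⟨main_A m n hn, main_B m n hn⟩

end Pool.Agent.Results.MP_2a941c_nt.IntegerValuedDS
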